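import Pool.Agent.N976.TL.Fin3

/-!
The singular set of a suitable weak periodic solution of the Navier-Stokes equations:

(1) it is a null set for the parabolic Hausdorff measures `H^h` of all gauges `h` (with `r / h(r)`
nondecreasing) with `liminf h(r) (log log (1 / r))^6 / (r log² (1 / r)) = 0`, for example for
`h(r) = r (log (1 / r))^β`, `β < 2` (the Caffarelli-Kohn-Nirenberg theorem is `h(r) = r`);

(2) its points at which the density of the dissipation is at most `M` form a set of parabolic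
dimension at most `1 - c / (√(1 + M) (1 + log (1 + M))²) < 1`, `c` an absolute constant.

`V = Fin 3 → ℝ` with the maximum norm. See the claim file for the definitions.
-/

open MeasureTheory Set
open scoped ENNReal

namespace Pool.Agent.Results.MP_6bf1e5_an.CKNLogSquare

open H459R3.NS W221.NS Pool.Agent.Y8

/-- The set `S` of points `(t, x)` has covers by countably many parabolic cylinders
`{ν |t - sᵢ| < rᵢ², ‖x - yᵢ‖ < rᵢ}` with `rᵢ ≤ ρ` and `∑ h(rᵢ) ≤ ρ`, for each `ρ > 0`. -/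
def Null (ν : ℝ) (h : ℝ → ℝ) (S : ℝ → V → Prop) : Prop := ∀ ρ : ℝ, 0 < ρ →
  ∃ (ι : Type) (_ : Countable ι) (s : ι → ℝ) (y : ι → V) (r : ι → ℝ),
    (∀ i, 0 < r i ∧ r i ≤ ρ) ∧ ∑' i, ENNReal.ofReal (h (r i)) ≤ ENNReal.ofReal ρ ∧
    ∀ (t : ℝ) (x : V), S t x → ∃ i, ν * |t - s i| < r i ^ 2 ∧ ‖x - y i‖ < r i

/-- The dissipation in the parabolic cylinder of radius `r` around `(t, x)`. -/
noncomputable def Diss (ν : ℝ) (G : Set ℝ) (u : ℝ → V → V) (t : ℝ) (x : V) (r : ℝ) : ℝ≥0∞ :=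
  ∫⁻ q in {q : ℝ × V | q.1 ∈ G ∧ ν * |q.1 - t| < r ^ 2 ∧ ‖q.2 - x‖ < r},
    ENNReal.ofReal (gsq (u q.1) q.2)

theorem result :
    (∀ (ν T E D : ℝ) (G : Set ℝ) (u : ℝ → V → V) (p : ℝ → V → ℝ), 0 < ν →
      Turb ν T E D G u p → ∀ (h : ℝ → ℝ) (r₀ : ℝ), 0 < r₀ → (∀ r ∈ Ioc 0 r₀, 0 < h r) →
      MonotoneOn (fun r => r / h r) (Ioc 0 r₀) →
      (∀ η > 0, ∀ ρ > 0, ∃ r ∈ Ioo 0 ρ,
        h r * (1 + Real.log (1 + |Real.log r|)) ^ 6 ≤ η * (r * Real.log r ^ 2)) →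
      Null ν h fun t x => t ∈ Ioo 0 T ∧ SingPt G u t x) ∧
    ∃ c : ℝ, 0 < c ∧ c < 1 ∧
      ∀ (ν T E D : ℝ) (G : Set ℝ) (u : ℝ → V → V) (p : ℝ → V → ℝ), 0 < ν →
      Turb ν T E D G u p → ∀ M : ℝ, 0 ≤ M →
      Null ν (fun r => r ^ (1 - c / (√(1 + M) * (1 + Real.log (1 + M)) ^ 2))) fun t x =>
        t ∈ Ioo 0 T ∧ SingPt G u t x ∧
          ∃ r₀ > 0, ∀ r ∈ Ioo 0 r₀, Diss ν G u t x r ≤ ENNReal.ofReal (M * ν * r) := by
  refine ⟨?_, ?_⟩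
  · intro ν T E D G u p hν hu h r₀ hr₀ hpos hmono hlim ρ hρ
    obtain ⟨ι, hι, s, y, r, h1, h2, h3⟩ :=
      Pool.Agent.N976.TL.fin1 Pool.Agent.N976.TL.p_C2 hν hu hr₀ hpos hmono hlim hρ
    exact ⟨ι, hι, s, y, r, fun i => ⟨(h1 i).1, (h1 i).2.2⟩, h2, fun t x hx => h3 t hx.1 x hx.2⟩
  · obtain ⟨c, hc, hc1, h⟩ := Pool.Agent.N976.TL.d2
    refine ⟨c, hc, hc1, ?_⟩
    intro ν T E D G u p hν hu M hM ρ hρ
    obtain ⟨ι, hι, s, y, r, h1, h2, h3⟩ := Pool.Agent.N976.TL.fin2 h hν hu hM hρ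
    exact ⟨ι, hι, s, y, r, h1, h2, fun t x hx => h3 t hx.1 x hx.2.1 hx.2.2⟩

end Pool.Agent.Results.MP_6bf1e5_an.CKNLogSquare
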