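import Pool.Agent.N976.GD.Fin2

/-!
# Global regularity for a set of data which is dense in the critical Besov spaces of order -1

Let `U` be any smooth periodic divergence-free field on `ℝ³`, `q > 2`, `ε > 0` and `K` a natural
number. For every global smooth solution `v` of the Navier-Stokes equations (for instance `v`
constant) whose mean value is that of `U` there is a smooth periodic divergence-free field `u₀` with
the same Fourier coefficients as `U` for `|k| < K`, at the distance at most `ε` from `U` in the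
scaling invariant norms of order `-1` with `q = ∞` and `q`, such that the solution `u` with
`u(0) = u₀` is smooth for all times, and after the time `ε` the solution `u` is close to `v`:
`∫_ε^∞ ‖u(t) - v(t)‖² dt ≤ ε`.

Idea: the packet `N a cos(2πN ξ·x) (k + sin(2πk·x + s) p)`, `ξ = k × p`, `k·p = 0`, has norm `O(a)`
in the critical spaces for all `N`, but its Reynolds stress removes the velocity
`a² / (8πν|p|²) cos(2πk·x + s) p` in the time `N⁻²`. A packet with a large frequency `N` can
therefore be traded for this velocity; many packets with small `a` and very different frequencies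
remove any velocity field.

Parts of the proof are due to helpers 27, 286, 300, 341, 356, 390, 398, 403, 441, 442, 488, 706, 776,
935; the local theory is from the projects of helper977, 319, 353.
-/

set_option autoImplicit false

open MeasureTheory Set

namespace Pool.Agent.Results.MP_6bf1e5_an.DenseGlobalRegularity

open H459R3.NS

/-- The Fourier coefficients `∫ exp (-2πi k·x) w(x) dx` (over the period cell) of a vector field. -/
noncomputable def coeff (w : V → V) (k : K3) : Fin 3 → ℂ := fun i => fr (fun x => w x i) k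

/-- The sum over all frequencies of the norms `maxᵢ |·|` of the Fourier coefficients
of `exp (tΔ) w`; it is at least the supremum of `|exp (tΔ) wᵢ|`. -/
noncomputable def heat (t : ℝ) (w : V → V) : ℝ :=
  ∑' k : K3, Real.exp (-(4 * Real.pi ^ 2 * (∑ j, (k j : ℝ) ^ 2) * t)) * ‖coeff w k‖

theorem result (ν : ℝ) (hν : 0 < ν) (U : V → V) (hU : SPV U)
    (hdiv : ∀ x, ∑ i, pd i (fun y => U y i) x = 0)
    (v : ℝ → V → V) (r : ℝ → V → ℝ) (hv : ∀ T, IsSol ν T v r)
    (hm : ∀ i, ∫ x in cube, v 0 x i = ∫ x in cube, U x i)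
    (q ε : ℝ) (hq : 2 < q) (hε : 0 < ε) (K : ℕ) :
    ∃ u₀ : V → V, SPV u₀ ∧ (∀ x, ∑ i, pd i (fun y => u₀ y i) x = 0) ∧
      (∀ k : K3, ∑ j, (k j : ℝ) ^ 2 < (K : ℝ) ^ 2 → coeff (fun x => u₀ x - U x) k = 0) ∧
      (∀ t, 0 < t → √t * heat t (fun x => u₀ x - U x) ≤ ε) ∧
      (∫⁻ t in Ioi (0 : ℝ), ENNReal.ofReal ((√t * heat t (fun x => u₀ x - U x)) ^ q / t)
        ≤ ENNReal.ofReal ε) ∧
      ∃ (u : ℝ → V → V) (p : ℝ → V → ℝ), u 0 = u₀ ∧ (∀ T, IsSol ν T u p) ∧
        ∀ τ, ε ≤ τ → ∫ t in ε..τ, (∑' k, ‖coeff (u t) k - coeff (v t) k‖) ^ 2 ≤ ε := by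
  obtain ⟨u₀, h1, h2, h3, h4, h5, u, p, h6, h7, h8⟩ :=
    Pool.Agent.N976.GD.main hν hU hdiv hv hm hq hε K
  have hl : ∀ k : K3, ∑ j, (k j : ℝ) ^ 2 = Pool.Agent.N977.Q.len k ^ 2 := fun k =>
    (Real.sq_sqrt (Finset.sum_nonneg fun j _ => sq_nonneg _)).symm
  have hH : ∀ (t : ℝ) (w : V → V), heat t w = Pool.Agent.N976.GD.HA t w := by
    intro t w
    unfold heat Pool.Agent.N976.GD.HA
    simp only [hl]
    rfl
  refine ⟨u₀, h1, h2, ?_, ?_, ?_, u, p, h6, h7, h8⟩
  · intro k hk
    rw [hl] at hk
    exact h3 k (lt_of_pow_lt_pow_left₀ 2 (Nat.cast_nonneg K) hk)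
  · intro t ht
    rw [hH]
    exact h4 t ht
  · simp only [hH]
    exact h5

end Pool.Agent.Results.MP_6bf1e5_an.DenseGlobalRegularity
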