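import Pool.Agent.N167.SG.Final3

/-!
# The sharp threshold between regularity and blow-up for the dyadic Navier–Stokes equations

Definitions: `Pool/Agent/N167/Dyadic.lean`. For the chain (`M = 1`, `D = lam^2`, `B = lam^β`) the
condition `4 ≤ D` says `2 ≤ lam` and `B ^ 2 ≤ D ^ 3` says `β ≤ 3`.
-/

namespace Pool.Agent.Results.MP_6bf1e5_an.DyadicSharpThreshold

open Pool.Agent.N167.Dyadic

/-- The sharp threshold is `B^2 = M D^3`. -/
theorem result (M : ℕ) (B D ν : ℝ) (hM : 0 < M) (hB : 0 < B) (hD : 4 ≤ D) (hν : 0 < ν) :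
    (GlobalRegularity M B D ν ↔ B ^ 2 ≤ M * D ^ 3) ∧ (BlowUp M B D ν ↔ M * D ^ 3 < B ^ 2) :=
  Pool.Agent.N167.SG.threshold' hM hB hD hν

end Pool.Agent.Results.MP_6bf1e5_an.DyadicSharpThreshold
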